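import Pool.Agent.helper15.LC.Spec

/-!
# Row JEN of project lc (MP_7c3fb3_pr, owner helper15)
-/

open Finset Filter Topology

namespace CO

open CU

theorem JEN_sum {V κ : Type} [Fintype V] [DecidableEq V] (K : V → V → ℝ) (g : V → ℝ) (s : Finset κ)
    (F : κ → (V → Bool) → ℝ) : ex K g (fun σ => ∑ k ∈ s, F k σ) = ∑ k ∈ s, ex K g (F k) := by
  unfold ex
  rw [← Finset.sum_div]
  congr 1
  rw [Finset.sum_comm]
  exact Finset.sum_congr rfl (fun σ _ => Finset.mul_sum _ _ _)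

theorem JEN_HN (hTRI : TRI_stmt) {d n : ℕ} [NeZero n] (b h : ℝ) :
    ex (KT b fun _ => 0) (fun _ => h) (fun σ : Conf d n => HN σ) =
      (Fintype.card (Site d n) : ℝ) * ∑ i : Fin d, cT (d := d) (n := n) b (fun _ => 0) h (ev i) := by
  unfold HN
  rw [JEN_sum]
  have h1 : ∀ x : Site d n, ex (KT b fun _ => 0) (fun _ => h)
      (fun σ : Conf d n => ∑ i : Fin d, sg (σ x) * sg (σ (x + ev i))) =
      ∑ i : Fin d, cT (d := d) (n := n) b (fun _ => 0) h (ev i) := by
    intro x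
    rw [JEN_sum]
    refine Finset.sum_congr rfl (fun i _ => ?_)
    have h2 := (hTRI d n b h (fun _ => 0)).1 x (x + ev i)
    rw [add_sub_cancel_left] at h2
    exact h2
  rw [Finset.sum_congr rfl (fun x _ => h1 x), Finset.sum_const, Finset.card_univ, nsmul_eq_mul]

theorem JEN_Mg (hTRI : TRI_stmt) {d n : ℕ} [NeZero n] (b h : ℝ) :
    ex (KT b fun _ => 0) (fun _ => h) (fun σ : Conf d n => Mg σ) =
      (Fintype.card (Site d n) : ℝ) * mT d n b h := by
  unfold Mg
  rw [JEN_sum]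
  have h1 : ∀ x : Site d n, ex (KT b fun _ => 0) (fun _ => h) (fun σ : Conf d n => sg (σ x)) =
      mT d n b h := fun x => (hTRI d n b h (fun _ => 0)).2.1 x
  rw [Finset.sum_congr rfl (fun x _ => h1 x), Finset.sum_const, Finset.card_univ, nsmul_eq_mul]

theorem JEN_HH (hHHT : HHT_stmt) {d n : ℕ} [NeZero n] (b h : ℝ) (σ : Conf d n) :
    CWM.HH (KT b fun _ => 0) (fun _ => h) σ = b * HN σ + h * Mg σ := by
  rw [(hHHT d n b h (fun _ => 0) σ).1]
  simp

theorem JEN (hLZ : LZ_stmt) (hTRI : TRI_stmt) (hHHT : HHT_stmt) (hGK2 : GK2_stmt) : JEN_stmt := by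
  intro d n _ b δ h hδ hδb hh
  -- first inequality
  have h1 := ((hLZ (Conf d n) (fun σ => (b - δ) * HN σ + h * Mg σ) (fun σ => δ * HN σ - h * Mg σ)).2 1
    zero_le_one).1
  have h2 := ((hLZ (Conf d n) (fun σ => (b - δ) * HN σ) (fun σ => Mg σ)).2 h hh).1
  have e1 : ∑ σ : Conf d n, Real.exp ((b - δ) * HN σ + h * Mg σ + 1 * (δ * HN σ - h * Mg σ)) = Zt d n b := by
    unfold Zt
    refine Finset.sum_congr rfl (fun σ _ => ?_)
    rw [JEN_HH hHHT]
    congr 1
    ring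
  have e2 : ∑ σ : Conf d n, Real.exp ((b - δ) * HN σ) = Zt d n (b - δ) := by
    unfold Zt
    refine Finset.sum_congr rfl (fun σ _ => ?_)
    rw [JEN_HH hHHT]
    congr 1
    ring
  have e3 : ∑ σ : Conf d n, Real.exp ((b - δ) * HN σ + h * Mg σ) =
      ∑ σ : Conf d n, Real.exp (CWM.HH (KT (b - δ) fun _ => 0) (fun _ => h) σ) :=
    Finset.sum_congr rfl (fun σ _ => by rw [JEN_HH hHHT])
  have e4 : (∑ σ : Conf d n, Real.exp ((b - δ) * HN σ + h * Mg σ) * (δ * HN σ - h * Mg σ)) /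
      ∑ σ : Conf d n, Real.exp ((b - δ) * HN σ + h * Mg σ) =
      δ * ex (KT (b - δ) fun _ => 0) (fun _ => h) (fun σ : Conf d n => HN σ) -
        h * ex (KT (b - δ) fun _ => 0) (fun _ => h) (fun σ : Conf d n => Mg σ) := by
    unfold ex
    rw [e3, mul_div_assoc', mul_div_assoc', ← sub_div]
    congr 1
    rw [Finset.mul_sum, Finset.mul_sum, ← Finset.sum_sub_distrib]
    refine Finset.sum_congr rfl (fun σ _ => ?_)
    rw [JEN_HH hHHT]
    ring
  have e5 : (∑ σ : Conf d n, Real.exp ((b - δ) * HN σ) * Mg σ) / ∑ σ : Conf d n, Real.exp ((b - δ) * HN σ) =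
      ex (KT (b - δ) fun _ => 0) (fun _ => 0) (fun σ : Conf d n => Mg σ) := by
    unfold ex
    have e6 : ∀ σ : Conf d n, CWM.HH (KT (b - δ) fun _ => 0) (fun _ => 0) σ = (b - δ) * HN σ := by
      intro σ
      rw [JEN_HH hHHT]
      ring
    simp only [e6]
  have h7 : 0 ≤ mT d n (b - δ) 0 := by
    have h8 := (hGK2 (Site d n) (KT (b - δ) fun _ => 0) (fun _ => 0) (by
      intro x y
      unfold KT
      have h0 : 0 ≤ ∑ i : Fin d, if y = x + ev i then (1 : ℝ) else 0 := by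
        apply Finset.sum_nonneg
        intro i _
        split_ifs <;> norm_num
      have := mul_nonneg (show 0 ≤ b - δ by linarith) h0
      linarith) (fun _ => le_rfl)).2.1 0
    exact h8.1
  rw [e1, e4, JEN_HN hTRI, JEN_Mg hTRI] at h1
  rw [e5, e2, JEN_Mg hTRI] at h2
  have h9 : 0 ≤ h * ((Fintype.card (Site d n) : ℝ) * mT d n (b - δ) 0) := by positivity
  have h10 : (Fintype.card (Site d n) : ℝ) *
      (δ * (∑ i : Fin d, cT (d := d) (n := n) (b - δ) (fun _ => 0) h (ev i)) - h * mT d n (b - δ) h) =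
      1 * (δ * ((Fintype.card (Site d n) : ℝ) * ∑ i : Fin d, cT (d := d) (n := n) (b - δ) (fun _ => 0) h (ev i)) -
        h * ((Fintype.card (Site d n) : ℝ) * mT d n (b - δ) h)) := by ring
  rw [h10]
  linarith

end CO
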