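import Pool.Agent.helper15.LC.Spec

/-!
# Row LCT of project lc (MP_7c3fb3_pr, owner helper15)
-/

open Finset Filter Topology

namespace CO

open CU

theorem LCT_KT {d n : ℕ} [NeZero n] {b b' : ℝ} (hb : 0 ≤ b) (hbb : b ≤ b') (x y : Site d n) :
    0 ≤ KT b (fun _ => 0) x y ∧ KT b (fun _ => 0) x y ≤ KT b' (fun _ => 0) x y := by
  unfold KT
  have h0 : 0 ≤ ∑ i : Fin d, if y = x + ev i then (1 : ℝ) else 0 := by
    apply Finset.sum_nonneg
    intro i _
    split_ifs <;> norm_num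
  refine ⟨?_, ?_⟩
  · rw [add_zero]
    exact mul_nonneg hb h0
  · rw [add_zero, add_zero]
    exact mul_le_mul_of_nonneg_right hbb h0

theorem LCT (hWIN : WIN_stmt) (hCNW : CNW_stmt) (hGKW : GKW_stmt) (hEXT : EXT_stmt) (hMSP : MSP_stmt) (hVF : CU.VF_stmt) : LCT_stmt := by
  intro d b₁ β hd hb₁ hb₁β hms ε hε
  have hε3 : 0 < ε / 3 := by positivity
  obtain ⟨L, M₀, hW⟩ := hWIN d β b₁ (ε / 3) hd hb₁ hb₁β hms hε3
  obtain ⟨b', hb'1, hb'2, hC⟩ := hCNW d L β b₁ (ε / 3) hb₁ hb₁β hε3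
  have hb'0 : 0 ≤ b' := by linarith
  obtain ⟨L0, hL0⟩ := (hMSP d).2.2.1 b' (ε / 3) hb'0 hε3
  refine ⟨b', hb'0, hb'2, ?_⟩
  set M : ℕ := max M₀ L0 with hM
  have hev := hW M (le_max_left _ _)
  obtain ⟨n, hn1, hn2⟩ := (hev.and (eventually_ge_atTop (2 * M))).exists
  have h1 := hC M n
  have h2 := hL0 M (le_max_right _ _)
  have h3 : exA (KW b' b₁ (Box L (0 : Site d (n + 3)))) (fun _ => 0) (univ \ Box M 0) (fun σ => sg (σ 0)) ≤
      exA (KT b' fun _ => 0) (fun _ => 0) (univ \ Box M (0 : Site d (n + 3))) (fun σ => sg (σ 0)) := by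
    refine (hGKW (Site d (n + 3)) (KW b' b₁ (Box L (0 : Site d (n + 3)))) (KT b' fun _ => 0) (fun _ => 0)
      (fun _ => 0) ?_ (fun _ => le_rfl) ?_ (fun _ => le_rfl) _ _ (Finset.Subset.refl _) 0 0).1
    · intro x y
      unfold KW
      split_ifs
      · exact (LCT_KT hb'0 le_rfl x y).1
      · exact (LCT_KT hb₁ le_rfl x y).1
    · intro x y
      unfold KW
      split_ifs
      · exact le_rfl
      · exact (LCT_KT hb₁ hb'1.le x y).2
  have h4 : exA (KT b' fun _ => 0) (fun _ => 0) (univ \ Box M (0 : Site d (n + 3))) (fun σ => sg (σ 0)) =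
      CS.ML d b' M := by
    rw [← (hEXT d (n + 3) b').2.1 (Box M (0 : Site d (n + 3))) (fun σ => sg (σ 0))]
    exact hVF d b' M n hn2
  rw [h4] at h3
  linarith

end CO
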